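import Pool.Agent.H211.AD.Stm3

/-! Task RBACK of project AD (helper211), proved by helper401. -/

set_option autoImplicit false

open Metric Set MeasureTheory Filter Topology Polynomial
open scoped OnePoint

namespace Pool.Agent.H401.AD211.RBACK

open Pool.Agent.H211.AD Pool.Agent.H792R2.CE Pool.Agent.H792R2.CE.C2x

/-- the attracted set is invariant under backward images -/
theorem att_back {d : ℕ} {P Q : ℂ[X]} (hcont : Continuous (sph d P Q)) (m : ℕ) {x : OnePoint ℂ}
    (h : Att d P Q ((sph d P Q)^[m] x)) : Att d P Q x := by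
  induction m generalizing x with
  | zero => exact h
  | succ m ih =>
    apply C2_step hcont
    apply ih
    rwa [← Function.iterate_succ_apply]

/-- the attracted set is invariant under forward images -/
theorem att_fwd {d : ℕ} {P Q : ℂ[X]} (hcont : Continuous (sph d P Q)) {x : OnePoint ℂ}
    (h : Att d P Q x) : Att d P Q (sph d P Q x) := by
  obtain ⟨n, hn, z, hfin, hper, hder, ht⟩ := h
  apply att_back hcont (n - 1)
  rw [← Function.iterate_succ_apply, Nat.succ_eq_add_one, Nat.sub_add_cancel hn]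
  refine ⟨n, hn, z, hfin, hper, hder, ?_⟩
  rw [← tendsto_add_atTop_iff_nat 1] at ht
  refine ht.congr fun k => ?_
  rw [← Function.iterate_add_apply]
  congr 1

theorem att_fwd_iter {d : ℕ} {P Q : ℂ[X]} (hcont : Continuous (sph d P Q)) {x : OnePoint ℂ}
    (h : Att d P Q x) (m : ℕ) : Att d P Q ((sph d P Q)^[m] x) := by
  induction m with
  | zero => exact h
  | succ m ih =>
    rw [Function.iterate_succ_apply']
    exact att_fwd hcont ih

/-- a compact invariant neighbourhood of an attracting periodic point -/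
theorem nbhd_inv {d : ℕ} {P Q : ℂ[X]} (hopen : IsOpen {x : OnePoint ℂ | Att d P Q x})
    {n : ℕ} (hn : 0 < n) {z : ℂ}
    (hfin : ∀ i : ℕ, (sph d P Q)^[i] (z : OnePoint ℂ) ≠ ∞)
    (hper : (sph d P Q)^[n] (z : OnePoint ℂ) = (z : OnePoint ℂ))
    (hder : ‖deriv ((rf P Q)^[n]) z‖ < 1) :
    ∃ D : Set (OnePoint ℂ), IsCompact D ∧ D ∈ 𝓝 (z : OnePoint ℂ) ∧ (∀ w ∈ D, Att d P Q w) ∧
      ∀ w ∈ D, (sph d P Q)^[n] w ∈ D := by
  have horb := orbit hfin
  have hGz : (rf P Q)^[n] z = z := by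
    have h1 := (horb n).1
    rw [hper, OnePoint.coe_eq_coe] at h1
    exact h1.symm
  have hQi : ∀ n, ∀ i < n, Q.eval ((rf P Q)^[i] z) ≠ 0 := fun _ i _ => (horb i).2
  have hd : HasDerivAt ((rf P Q)^[n]) (deriv ((rf P Q)^[n]) z) z :=
    (iter_diff n (hQi n)).hasDerivAt
  -- contraction
  have ev1 : ∀ᶠ w in 𝓝 z, ‖(rf P Q)^[n] w - z‖ ≤ ‖w - z‖ := by
    have h1 := (hasDerivAt_iff_isLittleO.1 hd).bound
      (show 0 < 1 - ‖deriv ((rf P Q)^[n]) z‖ by linarith)
    filter_upwards [h1] with w hw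
    rw [hGz] at hw
    have h2 : ‖(rf P Q)^[n] w - z‖ ≤ ‖(rf P Q)^[n] w - z - (w - z) • deriv ((rf P Q)^[n]) z‖ +
        ‖(w - z) • deriv ((rf P Q)^[n]) z‖ := by
      refine le_trans (le_of_eq ?_) (norm_add_le _ _)
      congr 1
      ring
    rw [norm_smul] at h2
    calc ‖(rf P Q)^[n] w - z‖ ≤ (1 - ‖deriv ((rf P Q)^[n]) z‖) * ‖w - z‖ +
          ‖w - z‖ * ‖deriv ((rf P Q)^[n]) z‖ := h2.trans (add_le_add hw le_rfl)
      _ = ‖w - z‖ := by ring
  have ev2 : ∀ᶠ w in 𝓝 z, ∀ i < n, Q.eval ((rf P Q)^[i] w) ≠ 0 := by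
    have h1 : ∀ i ∈ Finset.range n, ∀ᶠ w in 𝓝 z, Q.eval ((rf P Q)^[i] w) ≠ 0 := by
      intro i _
      have h2 : ContinuousAt (fun w => Q.eval ((rf P Q)^[i] w)) z :=
        ContinuousAt.comp (g := fun y => Q.eval y) Q.continuous.continuousAt
          (iter_diff i (hQi i)).continuousAt
      exact h2.eventually_ne (horb i).2
    have h3 := (Filter.eventually_all_finset (Finset.range n)).2 h1
    filter_upwards [h3] with w hw i hi
    exact hw i (Finset.mem_range.2 hi)
  have hzA : Att d P Q (z : OnePoint ℂ) := by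
    refine ⟨n, hn, z, hfin, hper, hder, ?_⟩
    have h1 : ∀ k : ℕ, (sph d P Q)^[n * k] (z : OnePoint ℂ) = (z : OnePoint ℂ) := by
      intro k
      rw [Function.iterate_mul]
      exact Function.iterate_fixed hper k
    simp only [h1]
    exact tendsto_const_nhds
  have ev3 : ∀ᶠ w in 𝓝 z, Att d P Q ((w : ℂ) : OnePoint ℂ) :=
    (OnePoint.continuous_coe (X := ℂ)).continuousAt.eventually (hopen.mem_nhds hzA)
  obtain ⟨ρ, hρ, hball⟩ := Metric.mem_nhds_iff.1 ((ev1.and ev2).and ev3)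
  have hsub : closedBall z (ρ / 2) ⊆ ball z ρ := closedBall_subset_ball (by linarith)
  refine ⟨(fun y : ℂ => (y : OnePoint ℂ)) '' closedBall z (ρ / 2), ?_, ?_, ?_, ?_⟩
  · exact (isCompact_closedBall z (ρ / 2)).image OnePoint.continuous_coe
  · refine mem_of_superset ((OnePoint.isOpenEmbedding_coe (X := ℂ)).isOpenMap.image_mem_nhds
      (ball_mem_nhds z (half_pos hρ))) (image_mono ball_subset_closedBall)
  · rintro _ ⟨w, hw, rfl⟩
    exact (hball (hsub hw)).2
  · rintro _ ⟨w, hw, rfl⟩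
    have h1 := (hball (hsub hw)).1
    refine ⟨(rf P Q)^[n] w, ?_, (iter_coe n h1.2).symm⟩
    rw [mem_closedBall, dist_eq_norm] at hw ⊢
    exact h1.1.trans hw

/-- near an attracted point all the orbits stay in a compact subset of the attracted set -/
theorem local_compact {d : ℕ} {P Q : ℂ[X]} (hcont : Continuous (sph d P Q))
    (hopen : IsOpen {x : OnePoint ℂ | Att d P Q x}) {x : OnePoint ℂ} (hx : Att d P Q x) :
    ∃ V ∈ 𝓝 x, ∃ K : Set (OnePoint ℂ), IsCompact K ∧ (∀ w ∈ K, Att d P Q w) ∧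
      ∀ w ∈ V, ∀ m, (sph d P Q)^[m] w ∈ K := by
  obtain ⟨n, hn, z, hfin, hper, hder, ht⟩ := hx
  have hx : Att d P Q x := ⟨n, hn, z, hfin, hper, hder, ht⟩
  obtain ⟨D, hDc, hDn, hDa, hDi⟩ := nbhd_inv hopen hn hfin hper hder
  obtain ⟨D', hD'D, hD'o, hzD'⟩ := mem_nhds_iff.1 hDn
  obtain ⟨k, hk⟩ := (ht.eventually (hD'o.mem_nhds hzD')).exists
  have h1 : (sph d P Q)^[n * k] ⁻¹' D' ∈ 𝓝 x :=
    ((hcont.iterate (n * k)).continuousAt (x := x)).preimage_mem_nhds (hD'o.mem_nhds hk)
  obtain ⟨V, hV, hVs, hVc⟩ := LocallyCompactSpace.local_compact_nhds x _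
    (inter_mem h1 (hopen.mem_nhds hx))
  refine ⟨V, hV, (⋃ i ∈ Finset.range (n * k), (sph d P Q)^[i] '' V) ∪
    ⋃ i ∈ Finset.range n, (sph d P Q)^[i] '' D, ?_, ?_, ?_⟩
  · refine IsCompact.union ?_ ?_
    · exact (Finset.range (n * k)).isCompact_biUnion fun i _ => hVc.image (hcont.iterate i)
    · exact (Finset.range n).isCompact_biUnion fun i _ => hDc.image (hcont.iterate i)
  · rintro w (hw | hw)
    · simp only [mem_iUnion] at hw
      obtain ⟨i, _, v, hv, rfl⟩ := hw
      exact att_fwd_iter hcont (hVs hv).2 i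
    · simp only [mem_iUnion] at hw
      obtain ⟨i, _, v, hv, rfl⟩ := hw
      exact att_fwd_iter hcont (hDa v hv) i
  · intro w hw m
    rcases lt_or_ge m (n * k) with hm | hm
    · left
      simp only [mem_iUnion]
      exact ⟨m, Finset.mem_range.2 hm, w, hw, rfl⟩
    · right
      have h2 : (sph d P Q)^[n * k] w ∈ D := hD'D (hVs hw).1
      have h3 : ∀ q : ℕ, (sph d P Q)^[n * q] ((sph d P Q)^[n * k] w) ∈ D := by
        intro q
        induction q with
        | zero => simpa using h2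
        | succ q ih =>
          rw [Nat.mul_succ, Nat.add_comm, Function.iterate_add_apply]
          exact hDi _ ih
      obtain ⟨m', rfl⟩ := Nat.exists_eq_add_of_le hm
      simp only [mem_iUnion]
      refine ⟨m' % n, Finset.mem_range.2 (Nat.mod_lt _ hn), _, h3 (m' / n), ?_⟩
      rw [← Function.iterate_add_apply, ← Function.iterate_add_apply]
      congr 1
      have := Nat.mod_add_div m' n
      omega

theorem t_RBACK : S_RBACK := by
  intro P Q d hd hc hPd hQd hinf ε hε
  have hd0 : 0 < d := by omega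
  have hopen := att_open hd0 hc hPd hQd
  have hcont : Continuous (sph d P Q) := B1_continuous hc hPd hQd
  have hKc : IsCompact (RK d P Q) := natt_compact hd0 hc hPd hQd hinf
  -- the compact set `L`
  set L : Set (OnePoint ℂ) := ((fun y : ℂ => (y : OnePoint ℂ)) '' thickening ε (RK d P Q))ᶜ with hL
  have hLc : IsCompact L :=
    ((OnePoint.isOpenEmbedding_coe (X := ℂ)).isOpenMap _ isOpen_thickening).isClosed_compl.isCompact
  have hLa : ∀ x ∈ L, Att d P Q x := by
    intro x hx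
    by_contra hna
    apply hx
    induction x using OnePoint.rec with
    | infty => exact absurd hinf hna
    | coe z => exact ⟨z, self_subset_thickening hε _ hna, rfl⟩
  choose! V hV C hCc hCa hCi using fun (x : OnePoint ℂ) (hx : Att d P Q x) =>
    local_compact hcont hopen hx
  obtain ⟨t, htL, htc⟩ := hLc.elim_nhds_subcover V fun x hx => hV x (hLa x hx)
  set T : Set (OnePoint ℂ) := ⋃ x ∈ t, C x with hT
  have hTc : IsCompact T := t.isCompact_biUnion fun x hx => hCc x (hLa x (htL x hx))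
  have hTa : ∀ w ∈ T, Att d P Q w := by
    intro w hw
    simp only [hT, mem_iUnion] at hw
    obtain ⟨x, hx, hw⟩ := hw
    exact hCa x (hLa x (htL x hx)) w hw
  have hcl : IsClosed {z : ℂ | (z : OnePoint ℂ) ∈ T} :=
    hTc.isClosed.preimage OnePoint.continuous_coe
  have hdisj : Disjoint (RK d P Q) {z : ℂ | (z : OnePoint ℂ) ∈ T} := by
    rw [Set.disjoint_left]
    intro z hz hzT
    exact hz (hTa _ hzT)
  obtain ⟨δ, hδ, hδd⟩ := hdisj.exists_cthickenings hKc hcl
  refine ⟨δ, hδ, fun n z hz => ?_⟩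
  by_contra hzn
  have h1 : (z : OnePoint ℂ) ∈ L := by
    rintro ⟨w, hw, hwz⟩
    rw [OnePoint.coe_eq_coe] at hwz
    subst hwz
    exact hzn (thickening_subset_cthickening _ _ hw)
  obtain ⟨x, hxt, hzx⟩ := mem_iUnion₂.1 (htc h1)
  have h2 := hCi x (hLa x (htL x hxt)) _ hzx n
  rw [iter_coe n hz.1] at h2
  refine Set.disjoint_left.1 hδd hz.2 (self_subset_cthickening _ ?_)
  show (((rf P Q)^[n] z : ℂ) : OnePoint ℂ) ∈ T
  simp only [hT, mem_iUnion]
  exact ⟨x, hxt, h2⟩

end Pool.Agent.H401.AD211.RBACK
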